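import Mathlib

/-!
# TF/M1: solutions of `a x + c z = d` modulo `β` in boxes
(helper862, for helper909)
-/

set_option autoImplicit false

namespace Pool.Agent.N862.TF

noncomputable section

/-- solutions of `a x + c z = d` modulo `β` in a box -/
def sol (a β : ℕ) (c d x₁ z₁ : ℤ) (X Z : ℕ) : Finset (ℤ × ℤ) :=
  (Finset.Ioc x₁ (x₁ + X) ×ˢ Finset.Ioc z₁ (z₁ + Z)).filter (fun v => (β : ℤ) ∣ a * v.1 + c * v.2 - d)

/-- the number of the integers of a residue class in an interval -/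
theorem cls_card (x v : ℤ) (X q : ℕ) (hq : 0 < q) :
    X < (((Finset.Ioc x (x + X)).filter (fun y => y ≡ v [ZMOD q])).card + 1) * q ∧
      ((Finset.Ioc x (x + X)).filter (fun y => y ≡ v [ZMOD q])).card * q ≤ X + q := by
  have hq' : (0 : ℤ) < q := by exact_mod_cast hq
  have h := Int.Ioc_filter_modEq_card x (x + X) hq' v
  set k := ((Finset.Ioc x (x + X)).filter (fun y => y ≡ v [ZMOD q])).card with hk
  have hqQ : (0 : ℚ) < ((q : ℤ) : ℚ) := by exact_mod_cast hq'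
  set A := ⌊(((x + X : ℤ) : ℚ) - v) / ((q : ℤ) : ℚ)⌋ with hA
  set B := ⌊((x : ℚ) - v) / ((q : ℤ) : ℚ)⌋ with hB
  have hA1 := Int.floor_le ((((x + X : ℤ) : ℚ) - v) / ((q : ℤ) : ℚ))
  have hA2 := Int.lt_floor_add_one ((((x + X : ℤ) : ℚ) - v) / ((q : ℤ) : ℚ))
  have hB1 := Int.floor_le (((x : ℚ) - v) / ((q : ℤ) : ℚ))
  have hB2 := Int.lt_floor_add_one (((x : ℚ) - v) / ((q : ℤ) : ℚ))
  rw [← hA] at hA1 hA2
  rw [← hB] at hB1 hB2
  rw [le_div_iff₀ hqQ] at hA1 hB1
  rw [div_lt_iff₀ hqQ] at hA2 hB2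
  push_cast at hA1 hA2 hB1 hB2
  have e1 : (X : ℚ) < (A - B + 1) * q := by linarith
  have e2 : ((A : ℚ) - B) * q < X + q := by linarith
  have f1 : (X : ℤ) < (A - B + 1) * q := by exact_mod_cast e1
  have f2 : (A - B) * q < (X : ℤ) + q := by exact_mod_cast e2
  constructor
  · have h1 : A - B ≤ (k : ℤ) := by rw [h]; exact le_max_left _ _
    have h2 : (X : ℤ) < ((k : ℤ) + 1) * q := by nlinarith
    exact_mod_cast h2
  · have h2 : (k : ℤ) * q ≤ X + q := by
      rw [h]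
      rcases le_total (A - B) 0 with h3 | h3
      · rw [max_eq_right h3, zero_mul]; positivity
      · rw [max_eq_left h3]; linarith
    exact_mod_cast h2

theorem cls_lower (x v : ℤ) (X q : ℕ) (hq : 0 < q) (hX : q ≤ X) :
    X ≤ 2 * q * ((Finset.Ioc x (x + X)).filter (fun y => y ≡ v [ZMOD q])).card := by
  have h := (cls_card x v X q hq).1
  set k := ((Finset.Ioc x (x + X)).filter (fun y => y ≡ v [ZMOD q])).card
  have hk : 1 ≤ k := by
    rcases Nat.eq_zero_or_pos k with h0 | h0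
    · rw [h0] at h; omega
    · exact h0
  nlinarith

/-- pairwise congruent integers in an interval -/
theorem card_congr (T : Finset ℤ) (x : ℤ) (X q : ℕ) (hq : 0 < q)
    (hT : T ⊆ Finset.Ioc x (x + X)) (hc : ∀ y ∈ T, ∀ y' ∈ T, (q : ℤ) ∣ y - y') :
    T.card * q ≤ X + q := by
  rcases T.eq_empty_or_nonempty with rfl | ⟨v, hv⟩
  · simp
  · refine le_trans (Nat.mul_le_mul_right q (Finset.card_le_card ?_)) (cls_card x v X q hq).2
    intro y hy
    rw [Finset.mem_filter]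
    exact ⟨hT hy, (Int.modEq_iff_dvd.2 (hc v hv y hy))⟩

theorem div_gcd {β : ℕ} (hβ : 0 < β) {c t : ℤ} (h : (β : ℤ) ∣ c * t) :
    ((β / Int.gcd c β : ℕ) : ℤ) ∣ t := by
  have hg : 0 < Int.gcd c β := Int.gcd_pos_of_ne_zero_right _ (by exact_mod_cast hβ.ne')
  have hgd : (Int.gcd c β : ℕ) ∣ β := by
    have := Int.gcd_dvd_right (a := c) (b := (β : ℤ))
    exact_mod_cast this
  obtain ⟨b', hb'⟩ := hgd
  have h1 : β / Int.gcd c β = b' := Nat.div_eq_of_eq_mul_right hg hb'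
  rw [h1]
  obtain ⟨c', hc'⟩ := Int.gcd_dvd_left (a := c) (b := (β : ℤ))
  have hcop : IsCoprime (b' : ℤ) c' := by
    have h2 := Int.gcd_eq_gcd_ab c (β : ℤ)
    have hg' : ((Int.gcd c β : ℕ) : ℤ) ≠ 0 := by exact_mod_cast hg.ne'
    refine ⟨Int.gcdB c β, Int.gcdA c β, ?_⟩
    have h3 : ((Int.gcd c β : ℕ) : ℤ) * (Int.gcdB c β * b' + Int.gcdA c β * c') =
        ((Int.gcd c β : ℕ) : ℤ) * 1 := by
      have h4 : (β : ℤ) = (Int.gcd c β : ℕ) * b' := by exact_mod_cast hb'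
      calc ((Int.gcd c β : ℕ) : ℤ) * (Int.gcdB c β * b' + Int.gcdA c β * c')
          = ((Int.gcd c β : ℕ) * c') * Int.gcdA c β + ((Int.gcd c β : ℕ) * b') * Int.gcdB c β := by
            ring
        _ = c * Int.gcdA c β + β * Int.gcdB c β := by rw [← hc', ← h4]
        _ = ((Int.gcd c β : ℕ) : ℤ) * 1 := by rw [← h2, mul_one]
    exact mul_left_cancel₀ hg' h3
  refine hcop.dvd_of_dvd_mul_left ?_
  have hg' : ((Int.gcd c β : ℕ) : ℤ) ≠ 0 := by exact_mod_cast hg.ne'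
  refine Int.dvd_of_mul_dvd_mul_left hg' ?_
  have h4 : ((Int.gcd c β : ℕ) : ℤ) * b' = β := by exact_mod_cast hb'.symm
  rw [h4, ← mul_assoc, ← hc']
  exact h

theorem gcd_mul {β : ℕ} (c : ℤ) : (β / Int.gcd c β) * Int.gcd c β = β := by
  apply Nat.div_mul_cancel
  have := Int.gcd_dvd_right (a := c) (b := (β : ℤ))
  exact_mod_cast this

theorem div_pos' {β : ℕ} (hβ : 0 < β) (c : ℤ) : 0 < β / Int.gcd c β := by
  have h := gcd_mul (β := β) c
  rcases Nat.eq_zero_or_pos (β / Int.gcd c β) with h0 | h0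
  · rw [h0] at h; omega
  · exact h0

theorem sol_x (a β : ℕ) (c d x₁ z₁ : ℤ) (X Z : ℕ) (hβ : 0 < β) (x : ℤ) :
    ((sol a β c d x₁ z₁ X Z).filter (fun v => v.1 = x)).card * β ≤ Z * Int.gcd c β + β := by
  set S := (sol a β c d x₁ z₁ X Z).filter (fun v => v.1 = x) with hS
  have hcard : (S.image Prod.snd).card = S.card := by
    apply Finset.card_image_of_injOn
    intro v hv w hw hvw
    rw [hS, Finset.mem_coe, Finset.mem_filter] at hv hw
    exact Prod.ext (hv.2.trans hw.2.symm) hvw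
  have h := card_congr (S.image Prod.snd) z₁ Z (β / Int.gcd c β) (div_pos' hβ c) (by
    intro y hy
    obtain ⟨v, hv, rfl⟩ := Finset.mem_image.1 hy
    rw [hS, Finset.mem_filter, sol, Finset.mem_filter, Finset.mem_product] at hv
    exact hv.1.1.2) (by
    intro y hy y' hy'
    obtain ⟨v, hv, rfl⟩ := Finset.mem_image.1 hy
    obtain ⟨w, hw, rfl⟩ := Finset.mem_image.1 hy'
    rw [hS, Finset.mem_filter, sol, Finset.mem_filter] at hv hw
    apply div_gcd hβ
    have := dvd_sub hv.1.2 hw.1.2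
    have e : a * v.1 + c * v.2 - d - (a * w.1 + c * w.2 - d) = c * (v.2 - w.2) := by
      rw [hv.2, hw.2]; ring
    rwa [e] at this)
  rw [hcard] at h
  calc S.card * β = S.card * (β / Int.gcd c β) * Int.gcd c β := by rw [mul_assoc, gcd_mul]
    _ ≤ (Z + β / Int.gcd c β) * Int.gcd c β := Nat.mul_le_mul_right _ h
    _ = Z * Int.gcd c β + β := by rw [add_mul, gcd_mul]

theorem sol_z (a β : ℕ) (c d x₁ z₁ : ℤ) (X Z : ℕ) (hβ : 0 < β) (z : ℤ) :
    ((sol a β c d x₁ z₁ X Z).filter (fun v => v.2 = z)).card * β ≤ X * Nat.gcd a β + β := by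
  set S := (sol a β c d x₁ z₁ X Z).filter (fun v => v.2 = z) with hS
  have hcard : (S.image Prod.fst).card = S.card := by
    apply Finset.card_image_of_injOn
    intro v hv w hw hvw
    rw [hS, Finset.mem_coe, Finset.mem_filter] at hv hw
    exact Prod.ext hvw (hv.2.trans hw.2.symm)
  have hgg : Int.gcd (a : ℤ) β = Nat.gcd a β := Int.gcd_natCast_natCast a β
  have h := card_congr (S.image Prod.fst) x₁ X (β / Int.gcd (a : ℤ) β) (div_pos' hβ a) (by
    intro y hy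
    obtain ⟨v, hv, rfl⟩ := Finset.mem_image.1 hy
    rw [hS, Finset.mem_filter, sol, Finset.mem_filter, Finset.mem_product] at hv
    exact hv.1.1.1) (by
    intro y hy y' hy'
    obtain ⟨v, hv, rfl⟩ := Finset.mem_image.1 hy
    obtain ⟨w, hw, rfl⟩ := Finset.mem_image.1 hy'
    rw [hS, Finset.mem_filter, sol, Finset.mem_filter] at hv hw
    apply div_gcd hβ
    have := dvd_sub hv.1.2 hw.1.2
    have e : a * v.1 + c * v.2 - d - (a * w.1 + c * w.2 - d) = (a : ℤ) * (v.1 - w.1) := by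
      rw [hv.2, hw.2]; ring
    rwa [e] at this)
  rw [hcard] at h
  calc S.card * β = S.card * (β / Int.gcd (a : ℤ) β) * Int.gcd (a : ℤ) β := by
        rw [mul_assoc, gcd_mul]
    _ ≤ (X + β / Int.gcd (a : ℤ) β) * Int.gcd (a : ℤ) β := Nat.mul_le_mul_right _ h
    _ = X * Nat.gcd a β + β := by rw [add_mul, gcd_mul, hgg]

theorem sol_y (a : ℕ) (c e x₁ z₁ : ℤ) (X Z : ℕ) (ha : 0 < a) :
    (((Finset.Ioc x₁ (x₁ + X) ×ˢ Finset.Ioc z₁ (z₁ + Z)) : Finset (ℤ × ℤ)).filter (fun v => a * v.1 + c * v.2 = e)).card * a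
      ≤ Z * Int.gcd a c + a := by
  have ha' : (a : ℤ) ≠ 0 := by exact_mod_cast ha.ne'
  set S := ((Finset.Ioc x₁ (x₁ + X) ×ˢ Finset.Ioc z₁ (z₁ + Z)) : Finset (ℤ × ℤ)).filter
    (fun v => a * v.1 + c * v.2 = e) with hS
  have hcard : (S.image Prod.snd).card = S.card := by
    apply Finset.card_image_of_injOn
    intro v hv w hw hvw
    rw [hS, Finset.mem_coe, Finset.mem_filter] at hv hw
    refine Prod.ext ?_ hvw
    have hvw' : v.2 = w.2 := hvw
    have h1 : (a : ℤ) * v.1 = a * w.1 := by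
      have := hv.2.trans hw.2.symm
      rw [hvw'] at this
      linarith
    exact mul_left_cancel₀ ha' h1
  have h := card_congr (S.image Prod.snd) z₁ Z (a / Int.gcd c a) (div_pos' ha c) (by
    intro y hy
    obtain ⟨v, hv, rfl⟩ := Finset.mem_image.1 hy
    rw [hS, Finset.mem_filter, Finset.mem_product] at hv
    exact hv.1.2) (by
    intro y hy y' hy'
    obtain ⟨v, hv, rfl⟩ := Finset.mem_image.1 hy
    obtain ⟨w, hw, rfl⟩ := Finset.mem_image.1 hy'
    rw [hS, Finset.mem_filter] at hv hw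
    apply div_gcd ha
    refine ⟨w.1 - v.1, ?_⟩
    linarith [hv.2, hw.2, mul_sub (a : ℤ) w.1 v.1, mul_sub c v.2 w.2])
  rw [hcard] at h
  calc S.card * a = S.card * (a / Int.gcd c a) * Int.gcd c a := by rw [mul_assoc, gcd_mul]
    _ ≤ (Z + a / Int.gcd c a) * Int.gcd c a := Nat.mul_le_mul_right _ h
    _ = Z * Int.gcd a c + a := by rw [add_mul, gcd_mul, Int.gcd_comm c a]

theorem sol_lower (a β : ℕ) (c d x₁ z₁ : ℤ) (X Z : ℕ) (ha : 0 < a) (hβ : 0 < β)
    (hg : Int.gcd (Nat.gcd a β) c = 1) (hX : β ≤ X) (hZ : a ≤ Z) :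
    X * Z ≤ 4 * β * (sol a β c d x₁ z₁ X Z).card := by
  classical
  have hg0 : 0 < Nat.gcd a β := Nat.gcd_pos_of_pos_left _ ha
  obtain ⟨a', ha'⟩ := Nat.gcd_dvd_left a β
  obtain ⟨b', hb'⟩ := Nat.gcd_dvd_right a β
  have hg0' : ((Nat.gcd a β : ℕ) : ℤ) ≠ 0 := by exact_mod_cast hg0.ne'
  have haZ : (a : ℤ) = (Nat.gcd a β : ℕ) * a' := by exact_mod_cast ha'
  have hbZ : (β : ℤ) = (Nat.gcd a β : ℕ) * b' := by exact_mod_cast hb'
  have hb0 : 0 < b' := by
    rcases Nat.eq_zero_or_pos b' with h0 | h0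
    · rw [h0, mul_zero] at hb'; omega
    · exact h0
  -- coprimality of the quotients
  have hcop : IsCoprime (a' : ℤ) (b' : ℤ) := by
    have h2 := Nat.gcd_eq_gcd_ab a β
    refine ⟨Nat.gcdA a β, Nat.gcdB a β, ?_⟩
    refine mul_left_cancel₀ hg0' ?_
    calc ((Nat.gcd a β : ℕ) : ℤ) * (Nat.gcdA a β * a' + Nat.gcdB a β * b')
        = ((Nat.gcd a β : ℕ) * a') * Nat.gcdA a β + ((Nat.gcd a β : ℕ) * b') * Nat.gcdB a β := by
          ring
      _ = a * Nat.gcdA a β + β * Nat.gcdB a β := by rw [← haZ, ← hbZ]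
      _ = ((Nat.gcd a β : ℕ) : ℤ) * 1 := by rw [← h2, mul_one]
  -- the class of `z`
  have hcg : IsCoprime ((Nat.gcd a β : ℕ) : ℤ) c := Int.isCoprime_iff_gcd_eq_one.2 hg
  obtain ⟨s, t, hst⟩ := hcg
  -- `t * c = 1` modulo the gcd
  set z0 : ℤ := t * d with hz0
  set Sz := (Finset.Ioc z₁ (z₁ + Z)).filter (fun z => z ≡ z0 [ZMOD (Nat.gcd a β)]) with hSz
  have hzc : ∀ z ∈ Sz, ∃ w : ℤ, d - c * z = (Nat.gcd a β : ℕ) * w := by
    intro z hz
    rw [hSz, Finset.mem_filter] at hz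
    obtain ⟨m, hm⟩ := Int.modEq_iff_dvd.1 hz.2
    refine ⟨s * d + c * m, ?_⟩
    have h1 : z = z0 - (Nat.gcd a β : ℕ) * m := by linarith
    rw [h1, hz0]
    linear_combination (-d) * hst
  obtain ⟨u, v, huv⟩ := hcop
  -- the fibres
  have hfib : ∀ z ∈ Sz, X ≤ 2 * b' *
      ((sol a β c d x₁ z₁ X Z).filter (fun w => w.2 = z)).card := by
    intro z hz
    obtain ⟨w, hw⟩ := hzc z hz
    have hzI : z ∈ Finset.Ioc z₁ (z₁ + Z) := by
      rw [hSz, Finset.mem_filter] at hz; exact hz.1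
    have hbX : b' ≤ X := by
      refine le_trans ?_ hX
      rw [hb']
      exact Nat.le_mul_of_pos_left _ hg0
    refine (cls_lower x₁ (u * w) X b' hb0 hbX).trans ?_
    refine Nat.mul_le_mul_left _ ?_
    refine Finset.card_le_card_of_injOn (fun x => (x, z)) ?_ ?_
    · intro x hx
      rw [Finset.mem_coe, Finset.mem_filter] at hx
      rw [Finset.mem_coe, Finset.mem_filter, sol, Finset.mem_filter, Finset.mem_product]
      refine ⟨⟨⟨hx.1, hzI⟩, ?_⟩, rfl⟩
      obtain ⟨m, hm⟩ := Int.modEq_iff_dvd.1 hx.2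
      simp only
      refine ⟨-(a' * m) - v * w, ?_⟩
      have h1 : x = u * w - b' * m := by linarith
      have h2 : (a : ℤ) * x + c * z - d = (Nat.gcd a β : ℕ) * (a' * x - w) := by
        rw [haZ]
        linear_combination -hw
      rw [h2, hbZ, h1]
      linear_combination ((Nat.gcd a β : ℕ) : ℤ) * w * huv
    · intro x _ y _ hxy
      exact (Prod.ext_iff.1 hxy).1
  have hcard : (sol a β c d x₁ z₁ X Z).card = ∑ z ∈ Finset.Ioc z₁ (z₁ + Z),
      ((sol a β c d x₁ z₁ X Z).filter (fun w => w.2 = z)).card := by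
    apply Finset.card_eq_sum_card_fiberwise
    intro v hv
    rw [Finset.mem_coe, sol, Finset.mem_filter, Finset.mem_product] at hv
    exact hv.1.2
  have hsub : ∑ z ∈ Sz, ((sol a β c d x₁ z₁ X Z).filter (fun w => w.2 = z)).card ≤
      (sol a β c d x₁ z₁ X Z).card := by
    rw [hcard]
    exact Finset.sum_le_sum_of_subset (Finset.filter_subset _ _)
  have hSzc : Z ≤ 2 * Nat.gcd a β * Sz.card := by
    refine cls_lower z₁ z0 Z (Nat.gcd a β) hg0 (le_trans ?_ hZ)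
    exact Nat.gcd_le_left β ha
  have hsum : Sz.card * X ≤ 2 * b' * (sol a β c d x₁ z₁ X Z).card := by
    calc Sz.card * X = ∑ _z ∈ Sz, X := by rw [Finset.sum_const, smul_eq_mul]
      _ ≤ ∑ z ∈ Sz, 2 * b' * ((sol a β c d x₁ z₁ X Z).filter (fun w => w.2 = z)).card :=
          Finset.sum_le_sum hfib
      _ = 2 * b' * ∑ z ∈ Sz, ((sol a β c d x₁ z₁ X Z).filter (fun w => w.2 = z)).card := by
          rw [Finset.mul_sum]
      _ ≤ 2 * b' * (sol a β c d x₁ z₁ X Z).card := Nat.mul_le_mul_left _ hsub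
  calc X * Z ≤ X * (2 * Nat.gcd a β * Sz.card) := Nat.mul_le_mul_left _ hSzc
    _ = 2 * Nat.gcd a β * (Sz.card * X) := by ring
    _ ≤ 2 * Nat.gcd a β * (2 * b' * (sol a β c d x₁ z₁ X Z).card) := Nat.mul_le_mul_left _ hsum
    _ = 4 * (Nat.gcd a β * b') * (sol a β c d x₁ z₁ X Z).card := by ring
    _ = 4 * β * (sol a β c d x₁ z₁ X Z).card := by rw [← hb']

end

end Pool.Agent.N862.TF
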